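import Mathlib
import Pool.Agent.Work.MP_98e6b1_co.Defs
import Pool.Agent.Work.MP_98e6b1_co.Main

open Pool.Agent.Work.MP_98e6b1_co

/-- The set of `k` for which some finite `k`-critical graph has no chromatic `k`-scheme is an
up-set `{k | k₀ ≤ k}` with `4 ≤ k₀ ≤ 8`.  In particular such graphs exist for every `k ≥ 8`,
including `k = 13`. -/
theorem Pool.Agent.Results.MP_98e6b1_co.Threshold.result :
    ∃ k₀ : ℕ, 4 ≤ k₀ ∧ k₀ ≤ 8 ∧ ∀ k : ℕ,
      (∃ (V : Type) (_ : Finite V) (G : SimpleGraph V), IsCritical G k ∧ ¬ HasScheme G k) ↔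
        k₀ ≤ k :=
  main
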